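import Pool.Agent.D0H96.MK.Sep

/-! Gluing the Markushevich bases of the separable pieces of a separable projectional resolution of the identity. -/

set_option autoImplicit false

namespace Pool.Agent.D0H96.MK

open Filter Topology

universe w

variable {𝕜 X : Type*} [RCLike 𝕜] [NormedAddCommGroup X] [NormedSpace 𝕜 X]

/-- a biorthogonal family may be indexed by the set of its pairs -/
theorem reindex {ι : Type*} (x : ι → X) (f : ι → StrongDual 𝕜 X)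
    (h1 : ∀ i, f i (x i) = 1) (h2 : ∀ i j, i ≠ j → f i (x j) = 0) :
    ∃ B : Set (X × StrongDual 𝕜 X), B = Set.range (fun i => (x i, f i)) ∧
      (∀ b ∈ B, b.2 b.1 = 1) ∧ ∀ b ∈ B, ∀ c ∈ B, b ≠ c → b.2 c.1 = 0 := by
  refine ⟨_, rfl, ?_, ?_⟩
  · rintro _ ⟨i, rfl⟩
    exact h1 i
  · rintro _ ⟨i, rfl⟩ _ ⟨j, rfl⟩ hne
    exact h2 i j (fun e => hne (by rw [e]))

section
variable {κ : Ordinal.{w}} {Q : Ordinal.{w} → X →L[𝕜] X}

theorem mulQ (hm : ∀ β α, β ≤ α → α ≤ κ → Q α ∘L Q β = Q β ∧ Q β ∘L Q α = Q β) {β α : Ordinal.{w}} (h : β ≤ α)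
    (hα : α ≤ κ) (e : X) : Q α (Q β e) = Q β e ∧ Q β (Q α e) = Q β e := by
  have := hm β α h hα
  exact ⟨congrArg (fun T : X →L[𝕜] X => T e) this.1, congrArg (fun T : X →L[𝕜] X => T e) this.2⟩

theorem Q_D_low (hm : ∀ β α, β ≤ α → α ≤ κ → Q α ∘L Q β = Q β ∧ Q β ∘L Q α = Q β) {γ α : Ordinal.{w}} (h : γ ≤ α)
    (hα : α < κ) (e : X) : Q γ ((Q (Order.succ α) - Q α) e) = 0 := by
  have hs : Order.succ α ≤ κ := Order.succ_le_of_lt hα
  show Q γ (Q (Order.succ α) e - Q α e) = 0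
  rw [map_sub, (mulQ hm (h.trans (Order.le_succ α)) hs e).2, (mulQ hm h hα.le e).2, sub_self]

theorem Q_D_high (hm : ∀ β α, β ≤ α → α ≤ κ → Q α ∘L Q β = Q β ∧ Q β ∘L Q α = Q β) {γ α : Ordinal.{w}} (h : α < γ)
    (hγ : γ ≤ κ) (e : X) : Q γ ((Q (Order.succ α) - Q α) e) = (Q (Order.succ α) - Q α) e := by
  show Q γ (Q (Order.succ α) e - Q α e) = Q (Order.succ α) e - Q α e
  rw [map_sub, (mulQ hm (Order.succ_le_of_lt h) hγ e).1, (mulQ hm h.le hγ e).1]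

theorem D_D_self (hm : ∀ β α, β ≤ α → α ≤ κ → Q α ∘L Q β = Q β ∧ Q β ∘L Q α = Q β) {α : Ordinal.{w}}
    (hα : α < κ) (e : X) : (Q (Order.succ α) - Q α) ((Q (Order.succ α) - Q α) e) = (Q (Order.succ α) - Q α) e := by
  show Q (Order.succ α) ((Q (Order.succ α) - Q α) e) - Q α ((Q (Order.succ α) - Q α) e) = _
  rw [Q_D_high hm (Order.lt_succ α) (Order.succ_le_of_lt hα), Q_D_low hm le_rfl hα, sub_zero]

theorem D_D_ne (hm : ∀ β α, β ≤ α → α ≤ κ → Q α ∘L Q β = Q β ∧ Q β ∘L Q α = Q β) {β α : Ordinal.{w}}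
    (hα : α < κ) (hβ : β < κ) (hne : β ≠ α) (e : X) :
    (Q (Order.succ β) - Q β) ((Q (Order.succ α) - Q α) e) = 0 := by
  show Q (Order.succ β) ((Q (Order.succ α) - Q α) e) - Q β ((Q (Order.succ α) - Q α) e) = _
  rcases lt_or_gt_of_ne hne with h | h
  · rw [Q_D_low hm (Order.succ_le_of_lt h) hα, Q_D_low hm h.le hα, sub_zero]
  · rw [Q_D_high hm (h.trans (Order.lt_succ β)) (Order.succ_le_of_lt hβ), Q_D_high hm h hβ.le, sub_self]

/-- **Gluing.** -/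
theorem glue (κ : Ordinal.{w}) (Q : Ordinal.{w} → X →L[𝕜] X)
    (hsep : ∀ α < κ, TopologicalSpace.IsSeparable (Set.range (Q (Order.succ α) - Q α)))
    (hm : ∀ β α, β ≤ α → α ≤ κ → Q α ∘L Q β = Q β ∧ Q β ∘L Q α = Q β)
    (hc : ∀ e : X, e ∈ closure (Submodule.span 𝕜 {y | ∃ β < κ, y = (Q (Order.succ β) - Q β) e} : Set X)) :
    ∃ B : Set (X × StrongDual 𝕜 X),
      (∀ b ∈ B, b.2 b.1 = 1) ∧ (∀ b ∈ B, ∀ c ∈ B, b ≠ c → b.2 c.1 = 0) ∧
      closure (Submodule.span 𝕜 (Prod.fst '' B) : Set X) = Set.univ ∧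
      (∀ e : X, (∀ b ∈ B, b.2 e = 0) → e = 0) ∧
      ∀ α ≤ κ, ∀ b ∈ B, Q α b.1 = b.1 ∨ Q α b.1 = 0 := by
  classical
  let D : Ordinal.{w} → X →L[𝕜] X := fun α => Q (Order.succ α) - Q α
  let Y : Ordinal.{w} → Submodule 𝕜 X := fun α => LinearMap.range (D α : X →ₗ[𝕜] X)
  have hY : ∀ α : Set.Iio κ, TopologicalSpace.SeparableSpace (Y α) := by
    intro α
    have h := hsep α.1 α.2
    have e : (Y α : Set X) = Set.range (Q (Order.succ α.1) - Q α.1) := rfl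
    rw [← e] at h
    exact h.separableSpace
  choose I x f hb hd ht using fun α : Set.Iio κ => (haveI := hY α; t_SEPM (𝕜 := 𝕜) (E := Y α))
  let R : ∀ α : Set.Iio κ, X →L[𝕜] Y α := fun α => (D α).codRestrict (Y α) (fun e => ⟨e, rfl⟩)
  have hR : ∀ (α : Set.Iio κ) (e : X), ((R α e : Y α) : X) = D α e := fun _ _ => rfl
  have hRy : ∀ (α : Set.Iio κ) (y : Y α), R α (y : X) = y := by
    intro α y
    apply Subtype.ext
    rw [hR]
    obtain ⟨e, he⟩ := y.2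
    rw [← he]
    exact D_D_self hm α.2 e
  have hRn : ∀ (α β : Set.Iio κ) (y : Y α), β ≠ α → R β (y : X) = 0 := by
    intro α β y hne
    apply Subtype.ext
    rw [hR]
    obtain ⟨e, he⟩ := y.2
    rw [← he]
    exact D_D_ne hm α.2 β.2 (fun h => hne (Subtype.ext h)) e
  let ι : Type (w + 1) := Σ α : Set.Iio κ, I α
  let X0 : ι → X := fun i => ((x i.1 i.2 : Y i.1) : X)
  let F0 : ι → StrongDual 𝕜 X := fun i => (f i.1 i.2).comp (R i.1)
  have hF : ∀ (i : ι) (e : X), F0 i e = f i.1 i.2 (R i.1 e) := fun _ _ => rfl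
  obtain ⟨B, hB, h1, h2⟩ := reindex X0 F0
    (by
      intro i
      rw [hF, hRy, hb i.1 i.2 i.2.2 i.2 i.2.2, if_pos rfl])
    (by
      rintro ⟨α, i⟩ ⟨β, j⟩ hne
      rw [hF]
      by_cases hαβ : α = β
      · subst hαβ
        have hij : (i : ℕ) ≠ j := fun e => hne (by rw [Subtype.ext e])
        show f α i (R α ((x α j : Y α) : X)) = 0
        rw [hRy, hb α i i.2 j j.2, if_neg hij]
      · show f α i (R α ((x β j : Y β) : X)) = 0
        rw [hRn β α _ hαβ, map_zero])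
  have hfst : Prod.fst '' B = Set.range X0 := by
    rw [hB]
    ext y
    constructor
    · rintro ⟨_, ⟨i, rfl⟩, rfl⟩
      exact ⟨i, rfl⟩
    · rintro ⟨i, rfl⟩
      exact ⟨_, ⟨i, rfl⟩, rfl⟩
  refine ⟨B, h1, h2, ?_, ?_, ?_⟩
  · rw [hfst, Set.eq_univ_iff_forall]
    intro e
    have hcl : ∀ (α : Set.Iio κ) (y : Y α), (y : X) ∈ closure (Submodule.span 𝕜 (Set.range X0) : Set X) := by
      intro α y
      have h3 : y ∈ closure (Submodule.span 𝕜 (x α '' I α) : Set (Y α)) := by rw [hd α]; exact Set.mem_univ _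
      have h4 : (y : X) ∈ (Subtype.val : Y α → X) '' closure (Submodule.span 𝕜 (x α '' I α) : Set (Y α)) :=
        ⟨y, h3, rfl⟩
      have h5 := image_closure_subset_closure_image (continuous_subtype_val (p := fun z => z ∈ Y α)) h4
      refine closure_mono ?_ h5
      rintro _ ⟨z, hz, rfl⟩
      have h6 : ((Y α).subtype z) ∈ (Submodule.span 𝕜 (x α '' I α)).map (Y α).subtype :=
        Submodule.mem_map_of_mem hz
      rw [Submodule.map_span] at h6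
      refine Submodule.span_mono ?_ h6
      rintro _ ⟨_, ⟨i, hi, rfl⟩, rfl⟩
      exact ⟨⟨α, ⟨i, hi⟩⟩, rfl⟩
    have h7 : (Submodule.span 𝕜 {y | ∃ β < κ, y = (Q (Order.succ β) - Q β) e} : Submodule 𝕜 X) ≤
        (Submodule.span 𝕜 (Set.range X0)).topologicalClosure := by
      rw [Submodule.span_le]
      rintro _ ⟨β, hβ, rfl⟩
      exact hcl ⟨β, hβ⟩ ⟨_, ⟨e, rfl⟩⟩
    have h8 := closure_mono (s := (Submodule.span 𝕜 {y | ∃ β < κ, y = (Q (Order.succ β) - Q β) e} : Set X))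
      (t := ((Submodule.span 𝕜 (Set.range X0)).topologicalClosure : Set X)) h7 (hc e)
    rwa [Submodule.topologicalClosure_coe, closure_closure] at h8
  · intro e he
    have h3 : ∀ β < κ, (Q (Order.succ β) - Q β) e = 0 := by
      intro β hβ
      have h4 : R ⟨β, hβ⟩ e = 0 := by
        apply ht ⟨β, hβ⟩
        intro i hi
        exact he (X0 ⟨⟨β, hβ⟩, ⟨i, hi⟩⟩, F0 ⟨⟨β, hβ⟩, ⟨i, hi⟩⟩) (by rw [hB]; exact ⟨_, rfl⟩)
      exact congrArg (fun y : Y β => (y : X)) h4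
    have h4 : (Submodule.span 𝕜 {y | ∃ β < κ, y = (Q (Order.succ β) - Q β) e} : Submodule 𝕜 X) = ⊥ := by
      rw [Submodule.span_eq_bot]
      rintro _ ⟨β, hβ, rfl⟩
      exact h3 β hβ
    have h5 := hc e
    rw [h4, Submodule.bot_coe, closure_singleton] at h5
    exact h5
  · intro α hα b hb'
    rw [hB] at hb'
    obtain ⟨⟨β, i⟩, rfl⟩ := hb'
    obtain ⟨e, he⟩ := (x β i).2
    show Q α ((x β i : Y β) : X) = ((x β i : Y β) : X) ∨ Q α ((x β i : Y β) : X) = 0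
    rw [← he]
    rcases le_or_gt α β.1 with h | h
    · exact Or.inr (Q_D_low hm h β.2 e)
    · exact Or.inl (Q_D_high hm h hα e)

end

end Pool.Agent.D0H96.MK
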