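import Pool.Agent.D0H96.MK.Glue
import Pool.Agent.D0H73.MK.Stm

/-! MK MB and GLUE. -/

set_option autoImplicit false

open Set Topology Filter Cardinal Ordinal

namespace Pool.Agent.D0H96.MK

open Pool.Agent.D0H73.MK

universe u

theorem t_MB : S_MB.{u} := by
  intro 𝕜 _ X _ _ _
  obtain ⟨I, x, f, h1, h2, h3⟩ := t_SEPM (𝕜 := 𝕜) (E := X)
  refine ⟨ULift.{u} I, fun i => x i.down, fun i => f i.down, ⟨?_, ?_, ?_, ?_⟩⟩
  · intro i
    rw [h1 _ i.down.2 _ i.down.2, if_pos rfl]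
  · intro i j hij
    rw [h1 _ i.down.2 _ j.down.2, if_neg]
    intro e
    exact hij (ULift.ext _ _ (Subtype.ext e))
  · rw [← h2]
    congr 2
    congr 1
    ext y
    constructor
    · rintro ⟨i, rfl⟩
      exact ⟨i.down, i.down.2, rfl⟩
    · rintro ⟨i, hi, rfl⟩
      exact ⟨⟨⟨i, hi⟩⟩, rfl⟩
  · intro v hv
    exact h3 v fun i hi => hv ⟨⟨i, hi⟩⟩

theorem t_GLUE : S_GLUE.{u} := by
  intro 𝕜 _ X _ _ κ Q hQ
  obtain ⟨B, h1, h2, h3, h4, h5⟩ := Pool.Agent.D0H96.MK.glue (𝕜 := 𝕜) κ.ord Q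
    (fun α hα => by
      have := hQ.sep α hα
      rwa [← Order.succ_eq_add_one] at this)
    (fun β α hβα hα => by
      constructor
      · ext e
        exact (hQ.comp β α hβα hα e).1
      · ext e
        exact (hQ.comp β α hβα hα e).2)
    (fun e => by
      have := hQ.dense e
      simp only [← Order.succ_eq_add_one, ContinuousLinearMap.coe_id', id_eq] at this
      exact this)
  refine ⟨B, fun b => b.1.1, fun b => b.1.2, ⟨?_, ?_, ?_, ?_⟩, ?_⟩
  · intro b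
    exact h1 _ b.2
  · intro b c hbc
    exact h2 _ b.2 _ c.2 fun e => hbc (Subtype.ext e)
  · rw [← h3]
    congr 2
    congr 1
    ext y
    constructor
    · rintro ⟨b, rfl⟩
      exact ⟨b.1, b.2, rfl⟩
    · rintro ⟨b, hb, rfl⟩
      exact ⟨⟨b, hb⟩, rfl⟩
  · intro v hv
    exact h4 v fun b hb => hv ⟨b, hb⟩
  · intro α hα b
    rcases h5 α hα b.1 b.2 with h | h
    · exact Or.inr ⟨b, h.symm⟩
    · exact Or.inl h

end Pool.Agent.D0H96.MK
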