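import Mathlib

/-! Markushevich bases of separable normed spaces (Markushevich's theorem). -/

set_option autoImplicit false

namespace Pool.Agent.D0H96.MK

open Filter Topology

variable {𝕜 E : Type*} [RCLike 𝕜] [NormedAddCommGroup E] [NormedSpace 𝕜 E]

/-- finite biorthogonal systems -/
structure Bio (𝕜 E : Type*) [RCLike 𝕜] [NormedAddCommGroup E] [NormedSpace 𝕜 E] where
  n : ℕ
  x : ℕ → E
  f : ℕ → StrongDual 𝕜 E
  bio : ∀ i < n, ∀ j < n, f i (x j) = if i = j then 1 else 0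

/-- `T` extends `S` -/
def Bio.Le (S T : Bio 𝕜 E) : Prop := S.n ≤ T.n ∧ ∀ i < S.n, T.x i = S.x i ∧ T.f i = S.f i

theorem Bio.le_refl (S : Bio 𝕜 E) : S.Le S := ⟨le_rfl, fun _ _ => ⟨rfl, rfl⟩⟩

theorem Bio.le_trans {S T U : Bio 𝕜 E} (h : S.Le T) (h' : T.Le U) : S.Le U :=
  ⟨h.1.trans h'.1, fun i hi => ⟨(h'.2 i (hi.trans_le h.1)).1.trans (h.2 i hi).1,
    (h'.2 i (hi.trans_le h.1)).2.trans (h.2 i hi).2⟩⟩

/-- adding one pair -/
theorem Bio.add (S : Bio 𝕜 E) (v : E) (g : StrongDual 𝕜 E) (hv : ∀ i < S.n, S.f i v = 0)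
    (hg : ∀ i < S.n, g (S.x i) = 0) (h1 : g v = 1) :
    ∃ T : Bio 𝕜 E, S.Le T ∧ T.n = S.n + 1 ∧ T.x S.n = v ∧ T.f S.n = g := by
  classical
  refine ⟨⟨S.n + 1, Function.update S.x S.n v, Function.update S.f S.n g, ?_⟩, ⟨Nat.le_succ _, ?_⟩, rfl, ?_, ?_⟩
  · intro i hi j hj
    rcases Nat.lt_succ_iff_lt_or_eq.1 hi with hi' | rfl
    · rcases Nat.lt_succ_iff_lt_or_eq.1 hj with hj' | rfl
      · rw [Function.update_of_ne hi'.ne, Function.update_of_ne hj'.ne]
        exact S.bio i hi' j hj'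
      · rw [Function.update_of_ne hi'.ne, Function.update_self, if_neg hi'.ne]
        exact hv i hi'
    · rcases Nat.lt_succ_iff_lt_or_eq.1 hj with hj' | rfl
      · rw [Function.update_self, Function.update_of_ne hj'.ne, if_neg hj'.ne']
        exact hg j hj'
      · rw [Function.update_self, Function.update_self, if_pos rfl, h1]
  · intro i hi
    exact ⟨Function.update_of_ne hi.ne _ _, Function.update_of_ne hi.ne _ _⟩
  · exact Function.update_self _ _ _
  · exact Function.update_self _ _ _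

/-- the part of `u` in the span of the system -/
theorem sum_f (S : Bio 𝕜 E) (u : E) (i : ℕ) (hi : i < S.n) :
    S.f i (∑ j ∈ Finset.range S.n, S.f j u • S.x j) = S.f i u := by
  rw [map_sum, Finset.sum_eq_single_of_mem i (Finset.mem_range.2 hi)]
  · rw [map_smul, S.bio i hi i hi, if_pos rfl, smul_eq_mul, mul_one]
  · intro j hj hji
    rw [map_smul, S.bio i hi j (Finset.mem_range.1 hj), if_neg (Ne.symm hji), smul_zero]

theorem sum_x (S : Bio 𝕜 E) (g : StrongDual 𝕜 E) (i : ℕ) (hi : i < S.n) :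
    (∑ j ∈ Finset.range S.n, g (S.x j) • S.f j) (S.x i) = g (S.x i) := by
  rw [ContinuousLinearMap.sum_apply, Finset.sum_eq_single_of_mem i (Finset.mem_range.2 hi)]
  · rw [ContinuousLinearMap.smul_apply, S.bio i hi i hi, if_pos rfl, smul_eq_mul, mul_one]
  · intro j hj hji
    rw [ContinuousLinearMap.smul_apply, S.bio j (Finset.mem_range.1 hj) i hi, if_neg hji, smul_zero]

theorem ext_vec (S : Bio 𝕜 E) (u : E) :
    ∃ T : Bio 𝕜 E, S.Le T ∧ u ∈ Submodule.span 𝕜 (T.x '' {i | i < T.n}) := by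
  set p := ∑ j ∈ Finset.range S.n, S.f j u • S.x j with hp
  have hpm : ∀ T : Bio 𝕜 E, S.Le T → p ∈ Submodule.span 𝕜 (T.x '' {i | i < T.n}) := by
    intro T hT
    refine Submodule.sum_mem _ fun j hj => Submodule.smul_mem _ _ (Submodule.subset_span ?_)
    exact ⟨j, (Finset.mem_range.1 hj).trans_le hT.1, (hT.2 j (Finset.mem_range.1 hj)).1⟩
  by_cases h : u - p = 0
  · refine ⟨S, S.le_refl, ?_⟩
    rw [sub_eq_zero.1 h]
    exact hpm S S.le_refl
  · obtain ⟨g, hg⟩ := SeparatingDual.exists_ne_zero (R := 𝕜) h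
    have hv : ∀ i < S.n, S.f i (u - p) = 0 := by
      intro i hi
      rw [map_sub, hp, sum_f S u i hi, sub_self]
    have hq : (∑ j ∈ Finset.range S.n, g (S.x j) • S.f j) (u - p) = 0 := by
      rw [ContinuousLinearMap.sum_apply]
      refine Finset.sum_eq_zero fun j hj => ?_
      rw [ContinuousLinearMap.smul_apply, hv j (Finset.mem_range.1 hj), smul_zero]
    obtain ⟨T, hT, hn, hx, -⟩ := S.add (u - p) ((g (u - p))⁻¹ • (g - ∑ j ∈ Finset.range S.n, g (S.x j) • S.f j)) hv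
      (fun i hi => by
        rw [ContinuousLinearMap.smul_apply, ContinuousLinearMap.sub_apply, sum_x S g i hi, sub_self, smul_zero])
      (by
        rw [ContinuousLinearMap.smul_apply, ContinuousLinearMap.sub_apply, hq, sub_zero, smul_eq_mul,
          inv_mul_cancel₀ hg])
    refine ⟨T, hT, ?_⟩
    have h1 : u - p ∈ Submodule.span 𝕜 (T.x '' {i | i < T.n}) :=
      Submodule.subset_span ⟨S.n, by rw [Set.mem_setOf_eq, hn]; exact Nat.lt_succ_self _, hx⟩
    have := Submodule.add_mem _ h1 (hpm T hT)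
    rwa [sub_add_cancel] at this

theorem ext_fun (S : Bio 𝕜 E) (g : StrongDual 𝕜 E) :
    ∃ T : Bio 𝕜 E, S.Le T ∧ g ∈ Submodule.span 𝕜 (T.f '' {i | i < T.n}) := by
  set p := ∑ j ∈ Finset.range S.n, g (S.x j) • S.f j with hp
  have hpm : ∀ T : Bio 𝕜 E, S.Le T → p ∈ Submodule.span 𝕜 (T.f '' {i | i < T.n}) := by
    intro T hT
    refine Submodule.sum_mem _ fun j hj => Submodule.smul_mem _ _ (Submodule.subset_span ?_)
    exact ⟨j, (Finset.mem_range.1 hj).trans_le hT.1, (hT.2 j (Finset.mem_range.1 hj)).2⟩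
  by_cases h : g - p = 0
  · refine ⟨S, S.le_refl, ?_⟩
    rw [sub_eq_zero.1 h]
    exact hpm S S.le_refl
  · obtain ⟨v, hv⟩ : ∃ v, (g - p) v ≠ 0 := by
      by_contra hcon
      push Not at hcon
      exact h (ContinuousLinearMap.ext hcon)
    have hg : ∀ i < S.n, (g - p) (S.x i) = 0 := by
      intro i hi
      rw [ContinuousLinearMap.sub_apply, hp, sum_x S g i hi, sub_self]
    set w := v - ∑ j ∈ Finset.range S.n, S.f j v • S.x j with hw
    have hq : (g - p) (∑ j ∈ Finset.range S.n, S.f j v • S.x j) = 0 := by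
      rw [map_sum]
      refine Finset.sum_eq_zero fun j hj => ?_
      rw [map_smul, hg j (Finset.mem_range.1 hj), smul_zero]
    have hwv : (g - p) w = (g - p) v := by rw [hw, map_sub, hq, sub_zero]
    have hfw : ∀ i < S.n, S.f i w = 0 := by
      intro i hi
      rw [hw, map_sub, sum_f S v i hi, sub_self]
    obtain ⟨T, hT, hn, -, hf⟩ := S.add (((g - p) v)⁻¹ • w) (g - p)
      (fun i hi => by rw [map_smul, hfw i hi, smul_zero]) hg
      (by rw [map_smul, hwv, smul_eq_mul, inv_mul_cancel₀ hv])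
    refine ⟨T, hT, ?_⟩
    have h1 : g - p ∈ Submodule.span 𝕜 (T.f '' {i | i < T.n}) :=
      Submodule.subset_span ⟨S.n, by rw [Set.mem_setOf_eq, hn]; exact Nat.lt_succ_self _, hf⟩
    have := Submodule.add_mem _ h1 (hpm T hT)
    rwa [sub_add_cancel] at this

theorem ext_both (S : Bio 𝕜 E) (u : E) (g : StrongDual 𝕜 E) :
    ∃ T : Bio 𝕜 E, S.Le T ∧ u ∈ Submodule.span 𝕜 (T.x '' {i | i < T.n}) ∧
      g ∈ Submodule.span 𝕜 (T.f '' {i | i < T.n}) := by
  obtain ⟨T, hT, hu⟩ := ext_vec S u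
  obtain ⟨U, hU, hg⟩ := ext_fun T g
  refine ⟨U, Bio.le_trans hT hU, ?_, hg⟩
  refine Submodule.span_mono ?_ hu
  rintro _ ⟨i, hi, rfl⟩
  exact ⟨i, lt_of_lt_of_le hi hU.1, (hU.2 i hi).1⟩

/-- countably many vectors and functionals -/
theorem exists_system (u : ℕ → E) (g : ℕ → StrongDual 𝕜 E) :
    ∃ (I : Set ℕ) (x : ℕ → E) (f : ℕ → StrongDual 𝕜 E),
      (∀ i ∈ I, ∀ j ∈ I, f i (x j) = if i = j then 1 else 0) ∧
      (∀ k, u k ∈ Submodule.span 𝕜 (x '' I)) ∧ ∀ k, g k ∈ Submodule.span 𝕜 (f '' I) := by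
  classical
  choose F hF1 hF2 hF3 using fun (S : Bio 𝕜 E) (u : E) (g : StrongDual 𝕜 E) => ext_both S u g
  let S : ℕ → Bio 𝕜 E := fun k => Nat.rec ⟨0, fun _ => 0, fun _ => 0, fun i hi => absurd hi (Nat.not_lt_zero i)⟩
    (fun k S => F S (u k) (g k)) k
  have hS : ∀ k, S (k + 1) = F (S k) (u k) (g k) := fun k => rfl
  have hle : ∀ k m, k ≤ m → (S k).Le (S m) := by
    intro k m hkm
    induction m, hkm using Nat.le_induction with
    | base => exact Bio.le_refl _
    | succ m _ ih => exact Bio.le_trans ih (by rw [hS]; exact hF1 _ _ _)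
  let I : Set ℕ := {i | ∃ k, i < (S k).n}
  let x : ℕ → E := fun i => if h : ∃ k, i < (S k).n then (S (Nat.find h)).x i else 0
  let f : ℕ → StrongDual 𝕜 E := fun i => if h : ∃ k, i < (S k).n then (S (Nat.find h)).f i else 0
  have hx : ∀ k i, i < (S k).n → x i = (S k).x i ∧ f i = (S k).f i := by
    intro k i hi
    have h : ∃ k, i < (S k).n := ⟨k, hi⟩
    have h1 := (hle (Nat.find h) k (Nat.find_min' h hi)).2 i (Nat.find_spec h)
    constructor
    · simp only [x, dif_pos h]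
      exact h1.1.symm
    · simp only [f, dif_pos h]
      exact h1.2.symm
  refine ⟨I, x, f, ?_, ?_, ?_⟩
  · rintro i ⟨k, hk⟩ j ⟨m, hm⟩
    have hi : i < (S (max k m)).n := hk.trans_le (hle _ _ (le_max_left _ _)).1
    have hj : j < (S (max k m)).n := hm.trans_le (hle _ _ (le_max_right _ _)).1
    rw [(hx _ i hi).2, (hx _ j hj).1]
    exact (S (max k m)).bio i hi j hj
  · intro k
    refine Submodule.span_mono ?_ (hF2 (S k) (u k) (g k))
    rintro _ ⟨i, hi, rfl⟩
    exact ⟨i, ⟨k + 1, by rw [hS]; exact hi⟩, (hx (k + 1) i (by rw [hS]; exact hi)).1⟩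
  · intro k
    refine Submodule.span_mono ?_ (hF3 (S k) (u k) (g k))
    rintro _ ⟨i, hi, rfl⟩
    exact ⟨i, ⟨k + 1, by rw [hS]; exact hi⟩, (hx (k + 1) i (by rw [hS]; exact hi)).2⟩

/-- **Markushevich's theorem**: a separable normed space has a Markushevich basis. -/
theorem t_SEPM [TopologicalSpace.SeparableSpace E] :
    ∃ (I : Set ℕ) (x : ℕ → E) (f : ℕ → StrongDual 𝕜 E),
      (∀ i ∈ I, ∀ j ∈ I, f i (x j) = if i = j then 1 else 0) ∧
      closure (Submodule.span 𝕜 (x '' I) : Set E) = Set.univ ∧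
      ∀ e : E, (∀ i ∈ I, f i e = 0) → e = 0 := by
  have hne : Nonempty E := ⟨0⟩
  let u : ℕ → E := TopologicalSpace.denseSeq E
  have hu : DenseRange u := TopologicalSpace.denseRange_denseSeq E
  choose g hg1 hg2 using fun n => exists_dual_vector'' 𝕜 (u n)
  obtain ⟨I, x, f, h1, h2, h3⟩ := exists_system u g
  refine ⟨I, x, f, h1, ?_, ?_⟩
  · rw [Set.eq_univ_iff_forall]
    intro e
    refine closure_mono ?_ (hu e)
    rintro _ ⟨n, rfl⟩
    exact h2 n
  · intro e he
    have hge : ∀ n, g n e = 0 := by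
      intro n
      have : ∀ φ ∈ Submodule.span 𝕜 (f '' I), φ e = 0 := by
        intro φ hφ
        induction hφ using Submodule.span_induction with
        | mem φ h =>
          obtain ⟨i, hi, rfl⟩ := h
          exact he i hi
        | zero => rfl
        | add φ ψ _ _ h h' => rw [ContinuousLinearMap.add_apply, h, h', add_zero]
        | smul c φ _ h => rw [ContinuousLinearMap.smul_apply, h, smul_zero]
      exact this _ (h3 n)
    by_contra hne
    have hpos : 0 < ‖e‖ := norm_pos_iff.2 hne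
    obtain ⟨n, hn⟩ := hu.exists_dist_lt e (half_pos hpos)
    have h4 : ‖u n‖ ≤ ‖u n - e‖ := by
      have h5 : ‖g n (u n - e)‖ ≤ 1 * ‖u n - e‖ := (g n).le_of_opNorm_le (hg1 n) _
      rw [map_sub, hge n, sub_zero, hg2 n, one_mul] at h5
      simpa using h5
    rw [dist_eq_norm] at hn
    have h6 : ‖e‖ ≤ ‖e - u n‖ + ‖u n‖ := by
      have := norm_add_le (e - u n) (u n)
      rwa [sub_add_cancel] at this
    rw [norm_sub_rev] at h4
    linarith

end Pool.Agent.D0H96.MK
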